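import Pool.Agent.Helper87.MC.Goals

namespace Pool.Agent.Helper19.MC

open Finset Pointwise
open Pool.Agent.Helper87.MC

open Classical in
theorem det : GDet := by
  intro G _ _ D t ξ hk H1 H2 H3
  set B1 := (univ : Finset (Fin (4 * D.card))).filter (fun i => ∃ w : G, w ≠ 0 ∧
      D.card ≤ t * rr D w ∧ ∀ x ∈ D, x + w ∉ D → ∃ i', i' ≠ i ∧ ξ i + (x + w) - ξ i' ∈ D) with hB1
  set B3 : G → Finset (Fin (4 * D.card)) := fun d => (univ : Finset (Fin (4 * D.card))).filter
      (fun i => ∃ i', i' ≠ i ∧ ξ i + d - ξ i' ∈ D) with hB3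
  have hHall : ∃ f : {d // d ∈ D} → Fin (4 * D.card), Function.Injective f ∧
      ∀ d, f d ∈ (B1 ∪ B3 d.1)ᶜ := by
    rw [← Finset.all_card_le_biUnion_card_iff_exists_injective
      (fun d : {d // d ∈ D} => (B1 ∪ B3 d.1)ᶜ)]
    intro s
    rcases s.eq_empty_or_nonempty with rfl | ⟨d, hd⟩
    · simp
    · have h1 : s.card ≤ D.card := by
        have := Finset.card_le_univ s
        rwa [Fintype.card_coe] at this
      have h2 : D.card ≤ ((B1 ∪ B3 d.1)ᶜ).card := by
        rw [Finset.card_compl, Fintype.card_fin]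
        have h3 := Finset.card_union_le B1 (B3 d.1)
        have h4 := H3 d.1 d.2
        have h5 : (B3 d.1).card < D.card := h4
        have h6 : B1.card < D.card := H1
        omega
      have h3 : (B1 ∪ B3 d.1)ᶜ ⊆ s.biUnion (fun d : {d // d ∈ D} => (B1 ∪ B3 d.1)ᶜ) :=
        Finset.subset_biUnion_of_mem (fun d : {d // d ∈ D} => (B1 ∪ B3 d.1)ᶜ) hd
      exact h1.trans (h2.trans (Finset.card_le_card h3))
  obtain ⟨f, hinj, hf⟩ := hHall
  have hf1 : ∀ d, f d ∉ B1 := fun d h => by
    have := hf d
    rw [Finset.mem_compl] at this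
    exact this (Finset.mem_union_left _ h)
  have hf3 : ∀ d, f d ∉ B3 d.1 := fun d h => by
    have := hf d
    rw [Finset.mem_compl] at this
    exact this (Finset.mem_union_right _ h)
  set F : Set G := {y | ∃ d : {d // d ∈ D}, y - ξ (f d) ∈ D ∧ y - ξ (f d) ≠ d.1} with hF
  have ha : ∀ d : {d // d ∈ D}, ξ (f d) + d.1 ∉ F := by
    rintro d ⟨d', h1, h2⟩
    have hne : d' ≠ d := by
      rintro rfl
      apply h2
      abel
    apply hf3 d
    rw [hB3]
    simp only [Finset.mem_filter, Finset.mem_univ, true_and]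
    exact ⟨f d', fun h => hne (hinj h), h1⟩
  have hb : ∀ g : G, ∃ x ∈ D, g + x ∉ F := by
    intro g
    by_contra hcon
    push Not at hcon
    have hsum : D.card ≤ ∑ d : {d // d ∈ D}, rr D (g - ξ (f d)) := by
      have h1 : D ⊆ (univ : Finset {d // d ∈ D}).biUnion
          (fun d => D.filter (fun x => x + (g - ξ (f d)) ∈ D)) := by
        intro x hx
        obtain ⟨d, h2, _⟩ := hcon x hx
        rw [Finset.mem_biUnion]
        refine ⟨d, Finset.mem_univ _, ?_⟩
        rw [Finset.mem_filter]
        refine ⟨hx, ?_⟩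
        have : x + (g - ξ (f d)) = g + x - ξ (f d) := by abel
        rw [this]
        exact h2
      calc D.card ≤ _ := Finset.card_le_card h1
        _ ≤ _ := Finset.card_biUnion_le
        _ = _ := rfl
    have hex : ∃ d : {d // d ∈ D}, D.card ≤ t * rr D (g - ξ (f d)) := by
      by_contra hn
      push Not at hn
      have h2 := H2 g
      have h3 : ∑ d : {d // d ∈ D}, rr D (g - ξ (f d)) ≤
          ∑ i, (if t * rr D (g - ξ i) < D.card then rr D (g - ξ i) else 0) := by
        calc ∑ d : {d // d ∈ D}, rr D (g - ξ (f d))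
            = ∑ d : {d // d ∈ D},
                (if t * rr D (g - ξ (f d)) < D.card then rr D (g - ξ (f d)) else 0) := by
              apply Finset.sum_congr rfl
              intro d _
              rw [if_pos (hn d)]
          _ = ∑ i ∈ (univ : Finset {d // d ∈ D}).image f,
                (if t * rr D (g - ξ i) < D.card then rr D (g - ξ i) else 0) := by
              rw [Finset.sum_image]
              intro a _ b _ hab
              exact hinj hab
          _ ≤ _ := Finset.sum_le_sum_of_subset (Finset.subset_univ _)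
      omega
    obtain ⟨d, hd⟩ := hex
    by_cases hw : g - ξ (f d) = 0
    · have h1 : g = ξ (f d) := sub_eq_zero.1 hw
      have h2 := hcon d.1 d.2
      rw [h1] at h2
      exact ha d h2
    · apply hf1 d
      rw [hB1]
      simp only [Finset.mem_filter, Finset.mem_univ, true_and]
      refine ⟨g - ξ (f d), hw, hd, ?_⟩
      intro x hx hxw
      obtain ⟨d', h1, _⟩ := hcon x hx
      refine ⟨f d', ?_, ?_⟩
      · intro he
        apply hxw
        have : x + (g - ξ (f d)) = g + x - ξ (f d') := by
          rw [he]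
          abel
        rw [this]
        exact h1
      · have : ξ (f d) + (x + (g - ξ (f d))) - ξ (f d') = g + x - ξ (f d') := by abel
        rw [this]
        exact h1
  refine ⟨Fᶜ, ?_, ?_⟩
  · apply Set.eq_univ_of_forall
    intro g
    obtain ⟨x, hx, hxF⟩ := hb g
    refine Set.mem_add.2 ⟨g + x, hxF, -x, ?_, by abel⟩
    simpa using hx
  · intro C' hC' huniv
    obtain ⟨hsub, hne⟩ := hC'
    obtain ⟨c, hc, hcn⟩ := Set.not_subset.1 hne
    have hcD : -c ∈ D := by simpa using hc
    have h1 : ξ (f ⟨-c, hcD⟩) ∈ Fᶜ + C' := by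
      rw [huniv]
      trivial
    obtain ⟨w', hw', c', hc', he⟩ := Set.mem_add.1 h1
    apply hw'
    have hc'D : -c' ∈ D := by
      have := hsub hc'
      simpa using this
    refine ⟨⟨-c, hcD⟩, ?_, ?_⟩
    · have : w' - ξ (f ⟨-c, hcD⟩) = -c' := by
        rw [← he]
        abel
      rw [this]
      exact hc'D
    · have : w' - ξ (f ⟨-c, hcD⟩) = -c' := by
        rw [← he]
        abel
      rw [this]
      intro h
      apply hcn
      have : c' = c := neg_injective h
      rw [← this]
      exact hc'

end Pool.Agent.Helper19.MC
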