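import Pool.Agent.Helper23.MC.Goals4
import Pool.Agent.Helper54.CG.EB

/-!
# Packet MC-PWA: the sums `PW` by progressions
-/

set_option autoImplicit false

open Finset Filter Topology

open scoped Classical

namespace Pool.Agent.Helper19.MC

open Pool.Agent.Helper23.MC
open Pool.Agent.Helper88.CG (pw th)
open Pool.Agent.Helper88.PP (pr QQ)
open Pool.Agent.Helper88.GM (NI)
open Pool.Agent.Helper54.CG (crt_fin crt_two one_pt xx xx_one xx_zero mem_pr' th_class QQ_pos)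

/-- The class given by two families of conditions. -/
lemma cls2 {Q b : ℕ} (hb : b < Q) {P : Finset ℕ} (A₁ A₂ : Finset ℕ) (hA₁ : ∀ p ∈ A₁, p.Prime)
    (hA₂ : ∀ p ∈ A₂, p.Prime) (hd : Disjoint A₁ A₂) (hQ₁ : ∀ p ∈ A₁, Nat.Coprime Q p)
    (hQ₂ : ∀ p ∈ A₂, Nat.Coprime Q p) (f₁ : ∀ p ∈ A₁, P) (f₂ : ∀ p ∈ A₂, P) :
    ∃ c : ℕ, c % Q = b ∧ (∀ p (hp : p ∈ A₁), p ∣ c + (f₁ p hp : ℕ)) ∧
      (∀ p (hp : p ∈ A₂), p ∣ c + (f₂ p hp : ℕ)) ∧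
      (∀ n, n % Q = b → ((∀ p (hp : p ∈ A₁), p ∣ n + (f₁ p hp : ℕ)) ↔
        n ≡ c [MOD Q * ∏ p ∈ A₁, p])) ∧
      (∀ n, n % Q = b → (((∀ p (hp : p ∈ A₁), p ∣ n + (f₁ p hp : ℕ)) ∧
        ∀ p (hp : p ∈ A₂), p ∣ n + (f₂ p hp : ℕ)) ↔
        n ≡ c [MOD Q * (∏ p ∈ A₁, p) * ∏ p ∈ A₂, p])) := by
  have crt : ∀ (A : Finset ℕ) (_ : ∀ p ∈ A, p.Prime) (f : ∀ p ∈ A, P), ∃ c : ℕ, ∀ n : ℕ,
      (∀ p (hp : p ∈ A), p ∣ n + (f p hp : ℕ)) ↔ n ≡ c [MOD ∏ p ∈ A, p] := by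
    intro A hA f
    obtain ⟨cA, hcA⟩ := crt_fin A.attach (fun p => (p : ℕ)) (fun p => (f p.1 p.2 : ℕ))
      (fun p _ => (hA p.1 p.2).pos) (fun p _ p' _ hne => by
        rw [Nat.coprime_primes (hA p.1 p.2) (hA p'.1 p'.2)]
        intro h
        exact hne (Subtype.ext h))
    have hprodA : ∏ p ∈ A.attach, (p : ℕ) = ∏ p ∈ A, p := prod_attach A (fun p => p)
    rw [hprodA] at hcA
    refine ⟨cA, fun n => ?_⟩
    rw [← hcA]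
    constructor
    · intro h p _
      exact h p.1 p.2
    · intro h p hp
      exact h ⟨p, hp⟩ (mem_attach _ _)
  obtain ⟨c₁, hc₁⟩ := crt A₁ hA₁ f₁
  obtain ⟨c₂, hc₂⟩ := crt A₂ hA₂ f₂
  have h12 : Nat.Coprime (∏ p ∈ A₁, p) (∏ p ∈ A₂, p) := by
    apply Nat.Coprime.prod_right
    intro p hp
    apply Nat.Coprime.prod_left
    intro p' hp'
    rw [Nat.coprime_primes (hA₁ p' hp') (hA₂ p hp)]
    rintro rfl
    exact (Finset.disjoint_left.1 hd) hp' hp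
  have hQ1 : Nat.Coprime Q (∏ p ∈ A₁, p) := Nat.Coprime.prod_right hQ₁
  have hQ2 : Nat.Coprime (Q * ∏ p ∈ A₁, p) (∏ p ∈ A₂, p) :=
    Nat.Coprime.mul_left (Nat.Coprime.prod_right hQ₂) h12
  obtain ⟨d₁, hd₁⟩ := crt_two hQ1 b c₁
  obtain ⟨c, hc⟩ := crt_two hQ2 d₁ c₂
  have h1 : c ≡ d₁ [MOD Q * ∏ p ∈ A₁, p] ∧ c ≡ c₂ [MOD ∏ p ∈ A₂, p] :=
    (hc c).2 (Nat.ModEq.refl c)
  have h2 : c ≡ b [MOD Q] ∧ c ≡ c₁ [MOD ∏ p ∈ A₁, p] := (hd₁ c).2 h1.1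
  have hbQ : b % Q = b := Nat.mod_eq_of_lt hb
  have hA1 : ∀ n, n % Q = b → ((∀ p (hp : p ∈ A₁), p ∣ n + (f₁ p hp : ℕ)) ↔
      n ≡ c [MOD Q * ∏ p ∈ A₁, p]) := by
    intro n hn
    have hn' : n ≡ b [MOD Q] := by
      show n % Q = b % Q
      rw [hn, hbQ]
    rw [hc₁]
    constructor
    · intro h
      exact ((hd₁ n).1 ⟨hn', h⟩).trans h1.1.symm
    · intro h
      exact ((hd₁ n).2 (h.trans h1.1)).2
  refine ⟨c, ?_, (hc₁ c).2 h2.2, (hc₂ c).2 h1.2, hA1, ?_⟩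
  · have : c % Q = b % Q := h2.1
    rw [this, hbQ]
  · intro n hn
    rw [hA1 n hn, hc₂, ← hc]
    constructor
    · rintro ⟨h3, h4⟩
      exact ⟨h3.trans h1.1, h4⟩
    · rintro ⟨h3, h4⟩
      exact ⟨h3.trans h1.1.symm, h4⟩

/-- the indicator of the conditions on the primes of `A` -/
noncomputable def ind {P : Finset ℕ} (n : ℕ) (A : Finset ℕ) (f : ∀ p ∈ A, P) : ℝ :=
  ∏ p ∈ A.attach, (if (p : ℕ) ∣ n + (f p.1 p.2 : ℕ) then (1 : ℝ) else 0)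

lemma ind_eq {P : Finset ℕ} (n : ℕ) (A : Finset ℕ) (f : ∀ p ∈ A, P) :
    ind n A f = if (∀ p (hp : p ∈ A), p ∣ n + (f p hp : ℕ)) then 1 else 0 := by
  unfold ind
  rw [prod_ite_zero, prod_const_one]
  by_cases h : ∀ p (hp : p ∈ A), p ∣ n + (f p hp : ℕ)
  · have h9 : ∀ p ∈ A.attach, (p : ℕ) ∣ n + (f p.1 p.2 : ℕ) := fun p _ => h p.1 p.2
    rw [if_pos h, if_pos h9]
  · rw [if_neg h, if_neg]
    intro h'
    exact h (fun p hp => h' ⟨p, hp⟩ (mem_attach _ _))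

/-- the sums by labels -/
lemma key2 {x y z b j : ℕ} (hx : 0 < x) (hlog : Real.log x ≤ y) (hb : b < QQ x)
    (hj : 1 ≤ j ∧ j ≤ y) (hjx : (j : ℝ) ≤ x / 32) {P : Finset ℕ} (hP : P ⊆ Icc 1 y) (hjP : j ∉ P)
    (hco : Nat.Coprime (b + j) (QQ x)) {A₁ A₂ : Finset ℕ} (hA₁ : A₁ ⊆ pr y z)
    (hA₂ : A₂ ⊆ pr y z) (hd : Disjoint A₁ A₂) (f₁ : ∀ p ∈ A₁, P) (f₂ : ∀ p ∈ A₂, P) :
    ∃ a : ℕ, Nat.Coprime a (QQ x * (∏ p ∈ A₁, p) * ∏ p ∈ A₂, p) ∧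
      ∑ n ∈ NI (x / 32) x (QQ x) b, pw x (n + j) * (ind n A₁ f₁ * ind n A₂ f₂) =
        th x (QQ x * (∏ p ∈ A₁, p) * ∏ p ∈ A₂, p) a ∧
      ∑ n ∈ NI (x / 32) x (QQ x) b, pw x (n + j) * ind n A₁ f₁ =
        th x (QQ x * ∏ p ∈ A₁, p) a := by
  have hprime : ∀ A : Finset ℕ, A ⊆ pr y z → ∀ p ∈ A, p.Prime :=
    fun A hA p hp => (mem_pr' (hA hp)).2.2
  have hpy : ∀ A : Finset ℕ, A ⊆ pr y z → ∀ p ∈ A, y < p := fun A hA p hp => (mem_pr' (hA hp)).1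
  have hQp : ∀ p : ℕ, p.Prime → p ∣ QQ x → p ≤ y := by
    intro p hp h
    have h1 : p ≤ ⌊Real.log x / 20⌋₊ := hp.dvd_primorial_iff.1 h
    have h0 : 0 ≤ Real.log (x : ℝ) := Real.log_natCast_nonneg x
    have h2 : ((⌊Real.log x / 20⌋₊ : ℕ) : ℝ) ≤ Real.log x / 20 := Nat.floor_le (by positivity)
    have h3 : (p : ℝ) ≤ y := by
      have : (p : ℝ) ≤ ((⌊Real.log x / 20⌋₊ : ℕ) : ℝ) := by exact_mod_cast h1
      linarith
    exact_mod_cast h3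
  have hAQ : ∀ A : Finset ℕ, A ⊆ pr y z → ∀ p ∈ A, Nat.Coprime (QQ x) p := by
    intro A hA p hp
    rw [Nat.coprime_comm, (hprime A hA p hp).coprime_iff_not_dvd]
    intro h
    have h1 := hQp p (hprime A hA p hp) h
    have h2 := hpy A hA p hp
    omega
  obtain ⟨c, hc1, hc2, hc3, hc4, hc5⟩ := cls2 hb A₁ A₂ (hprime A₁ hA₁) (hprime A₂ hA₂) hd
    (hAQ A₁ hA₁) (hAQ A₂ hA₂) f₁ f₂
  have hcopA : ∀ (A : Finset ℕ) (_ : A ⊆ pr y z) (f : ∀ p ∈ A, P)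
      (_ : ∀ p (hp : p ∈ A), p ∣ c + (f p hp : ℕ)), Nat.Coprime (c + j) (∏ p ∈ A, p) := by
    intro A hA f hf
    apply Nat.Coprime.prod_right
    intro p hp
    rw [Nat.coprime_comm, (hprime A hA p hp).coprime_iff_not_dvd]
    intro h
    have h1 := one_pt (hpy A hA p hp) (mem_Icc.1 (hP (f p hp).2)) hj (hf p hp) h
    exact hjP (h1 ▸ (f p hp).2)
  have hcop : Nat.Coprime (c + j) (QQ x * (∏ p ∈ A₁, p) * ∏ p ∈ A₂, p) := by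
    apply Nat.Coprime.mul_right
    · apply Nat.Coprime.mul_right
      · have h1 : (c + j) ≡ b + j [MOD QQ x] := by
          apply Nat.ModEq.add_right
          show c % QQ x = b % QQ x
          rw [hc1, Nat.mod_eq_of_lt hb]
        have h2 := h1.gcd_eq
        unfold Nat.Coprime at hco ⊢
        rw [h2]
        exact hco
      · exact hcopA A₁ hA₁ f₁ hc2
    · exact hcopA A₂ hA₂ f₂ hc3
  have hT1 : ∑ n ∈ NI (x / 32) x (QQ x) b, pw x (n + j) * (ind n A₁ f₁ * ind n A₂ f₂) =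
      ∑ n ∈ NI (x / 32) x (QQ x) b, pw x (n + j) *
        (if n ≡ c [MOD QQ x * (∏ p ∈ A₁, p) * ∏ p ∈ A₂, p] then 1 else 0) := by
    apply sum_congr rfl
    intro n hn
    have hnb : n % QQ x = b := (mem_filter.1 hn).2
    congr 1
    rw [ind_eq, ind_eq]
    have h5 := hc5 n hnb
    by_cases h6 : n ≡ c [MOD QQ x * (∏ p ∈ A₁, p) * ∏ p ∈ A₂, p]
    · obtain ⟨h7, h8⟩ := h5.2 h6
      rw [if_pos h6, if_pos h7, if_pos h8, mul_one]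
    · rw [if_neg h6]
      by_cases h7 : ∀ p (hp : p ∈ A₁), p ∣ n + (f₁ p hp : ℕ)
      · rw [if_pos h7, one_mul, if_neg]
        intro h8
        exact h6 (h5.1 ⟨h7, h8⟩)
      · rw [if_neg h7, zero_mul]
  have hT2 : ∑ n ∈ NI (x / 32) x (QQ x) b, pw x (n + j) * ind n A₁ f₁ =
      ∑ n ∈ NI (x / 32) x (QQ x) b, pw x (n + j) *
        (if n ≡ c [MOD QQ x * ∏ p ∈ A₁, p] then 1 else 0) := by
    apply sum_congr rfl
    intro n hn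
    have hnb : n % QQ x = b := (mem_filter.1 hn).2
    congr 1
    rw [ind_eq]
    have h5 := hc4 n hnb
    by_cases h6 : n ≡ c [MOD QQ x * ∏ p ∈ A₁, p]
    · rw [if_pos h6, if_pos (h5.2 h6)]
    · rw [if_neg h6, if_neg (fun h8 => h6 (h5.1 h8))]
  refine ⟨c + j, hcop, ?_, ?_⟩
  · rw [hT1]
    exact th_class hx hjx (Dvd.intro _ (mul_assoc _ _ _).symm) hc1
  · rw [hT2]
    exact th_class hx hjx (Dvd.intro _ rfl) hc1

/-- the indicator of `PW` as a product -/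
lemma prod_xx_eq {y z : ℕ} {B : Finset ℕ} (hB : B ⊆ Icc 1 y) {A : Finset ℕ} (hA : A ⊆ pr y z)
    (n : ℕ) : (if ∀ p ∈ A, ∃ i ∈ B, p ∣ n + i then (1 : ℝ) else 0) =
      ∏ p ∈ A, xx (univ : Finset B) n p := by
  split_ifs with h
  · symm
    apply prod_eq_one
    intro p hp
    obtain ⟨i, hi, h1⟩ := h p hp
    exact xx_one hB (mem_pr' (hA hp)).1 (i := ⟨i, hi⟩) (mem_univ _) h1
  · symm
    push Not at h
    obtain ⟨p, hp, h1⟩ := h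
    apply prod_eq_zero hp
    exact xx_zero (fun i _ => h1 i.1 i.2)

lemma prod_xx_sum {B : Finset ℕ} (A : Finset ℕ) (n : ℕ) :
    ∏ p ∈ A, xx (univ : Finset B) n p =
      ∑ f ∈ A.pi (fun _ => (univ : Finset B)), ind n A f := by
  unfold xx ind
  rw [prod_sum]

/-- **Packet MC-PWA.** -/
theorem pwa : StmtPWA := by
  refine ⟨1, ?_⟩
  intro x y z b j hx hlog hyx hb hco hj B hB hjB A₁ hA₁
  have hx0 : 0 < x := hx
  rw [mem_Icc] at hj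
  have hjx : (j : ℝ) ≤ x / 32 := by
    have h1 : 32 * j ≤ x := by omega
    have h2 : (32 : ℝ) * j ≤ x := by exact_mod_cast h1
    linarith
  set N := NI (x / 32) x (QQ x) b with hN
  -- the sums with labels
  obtain ⟨T1, hT1⟩ : ∃ T1 : (∀ p ∈ A₁, B) → ℝ, T1 = fun f₁ =>
    ∑ n ∈ N, pw x (n + j) * ind n A₁ f₁ := ⟨_, rfl⟩
  obtain ⟨T2, hT2⟩ : ∃ T2 : ∀ A₂ : Finset ℕ, (∀ p ∈ A₁, B) → (∀ p ∈ A₂, B) → ℝ,
    T2 = fun A₂ f₁ f₂ => ∑ n ∈ N, pw x (n + j) * (ind n A₁ f₁ * ind n A₂ f₂) := ⟨_, rfl⟩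
  have ha : ∀ A₂ : Finset ℕ, ∃ a : ℕ, A₂ ⊆ pr y z → Disjoint A₁ A₂ →
      (Nat.Coprime a (QQ x * (∏ p ∈ A₁, p) * ∏ p ∈ A₂, p) ∧
        ∀ f₁ ∈ A₁.pi (fun _ => (univ : Finset B)), ∀ f₂ ∈ A₂.pi (fun _ => (univ : Finset B)),
          |T2 A₂ f₁ f₂ - T1 f₁ / (Nat.totient (∏ p ∈ A₂, p) : ℝ)| ≤
            |th x (QQ x * (∏ p ∈ A₁, p) * ∏ p ∈ A₂, p) a
              - th x (QQ x * ∏ p ∈ A₁, p) a / (Nat.totient (∏ p ∈ A₂, p) : ℝ)|) := by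
    intro A₂
    by_cases hA₂ : A₂ ⊆ pr y z ∧ Disjoint A₁ A₂
    · by_cases hne : (A₁.pi (fun _ => (univ : Finset B)) ×ˢ
          A₂.pi (fun _ => (univ : Finset B))).Nonempty
      · obtain ⟨f0, hf0, hmax⟩ := exists_max_image (A₁.pi (fun _ => (univ : Finset B)) ×ˢ
          A₂.pi (fun _ => (univ : Finset B)))
          (fun f => |T2 A₂ f.1 f.2 - T1 f.1 / (Nat.totient (∏ p ∈ A₂, p) : ℝ)|) hne
        obtain ⟨a, h1, h2, h3⟩ := key2 hx0 hlog hb hj hjx hB hjB hco hA₁ hA₂.1 hA₂.2 f0.1 f0.2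
        refine ⟨a, fun _ _ => ⟨h1, fun f₁ hf₁ f₂ hf₂ => ?_⟩⟩
        have h4 := hmax (f₁, f₂) (mem_product.2 ⟨hf₁, hf₂⟩)
        rw [← h2, ← h3]
        simp only [hT1, hT2] at h4 ⊢
        exact h4
      · refine ⟨1, fun _ _ => ⟨Nat.coprime_one_left _, fun f₁ hf₁ f₂ hf₂ => ?_⟩⟩
        exact absurd ⟨(f₁, f₂), mem_product.2 ⟨hf₁, hf₂⟩⟩ hne
    · exact ⟨1, fun h h' => absurd ⟨h, h'⟩ hA₂⟩
  choose a ha using ha
  refine ⟨a, fun A₂ hA₂ hd => ⟨(ha A₂ hA₂ hd).1, ?_⟩⟩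
  have hmain := (ha A₂ hA₂ hd).2
  set Φ : ℝ := (Nat.totient (∏ p ∈ A₂, p) : ℝ) with hΦ
  set R : ℝ := |th x (QQ x * (∏ p ∈ A₁, p) * ∏ p ∈ A₂, p) (a A₂)
              - th x (QQ x * ∏ p ∈ A₁, p) (a A₂) / Φ| with hR
  have hP1 : PW x b j B A₁ = ∑ f₁ ∈ A₁.pi (fun _ => (univ : Finset B)), T1 f₁ := by
    unfold PW
    rw [hT1]
    dsimp only
    rw [sum_comm]
    refine sum_congr rfl fun n _ => ?_
    rw [prod_xx_eq hB hA₁, prod_xx_sum, mul_sum]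
  have hP2 : PW x b j B (A₁ ∪ A₂) = ∑ f₁ ∈ A₁.pi (fun _ => (univ : Finset B)),
      ∑ f₂ ∈ A₂.pi (fun _ => (univ : Finset B)), T2 A₂ f₁ f₂ := by
    unfold PW
    rw [hT2]
    dsimp only
    have h1 : ∀ f₁ ∈ A₁.pi (fun _ => (univ : Finset B)),
        ∑ f₂ ∈ A₂.pi (fun _ => (univ : Finset B)), ∑ n ∈ N, pw x (n + j) *
          (ind n A₁ f₁ * ind n A₂ f₂) = ∑ n ∈ N, pw x (n + j) * (ind n A₁ f₁ *
            ∑ f₂ ∈ A₂.pi (fun _ => (univ : Finset B)), ind n A₂ f₂) := by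
      intro f₁ _
      rw [sum_comm]
      refine sum_congr rfl fun n _ => ?_
      rw [mul_sum, mul_sum]
    rw [sum_congr rfl h1, sum_comm]
    refine sum_congr rfl fun n _ => ?_
    rw [prod_xx_eq hB (union_subset hA₁ hA₂), prod_union hd, prod_xx_sum A₁, prod_xx_sum A₂,
      ← mul_sum, sum_mul]
  have hcard : ∀ A : Finset ℕ, ((A.pi (fun _ => (univ : Finset B))).card : ℝ) =
      (B.card : ℝ) ^ A.card := by
    intro A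
    rw [card_pi, prod_const, card_univ, Fintype.card_coe]
    push_cast
    rfl
  have hkey : PW x b j B (A₁ ∪ A₂) - (B.card : ℝ) ^ A₂.card / Φ * PW x b j B A₁ =
      ∑ f₁ ∈ A₁.pi (fun _ => (univ : Finset B)), ∑ f₂ ∈ A₂.pi (fun _ => (univ : Finset B)),
        (T2 A₂ f₁ f₂ - T1 f₁ / Φ) := by
    rw [hP1, hP2, mul_sum, ← sum_sub_distrib]
    refine sum_congr rfl fun f₁ _ => ?_
    rw [sum_sub_distrib, sum_const, nsmul_eq_mul, hcard]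
    ring
  rw [hkey]
  refine (abs_sum_le_sum_abs _ _).trans ?_
  have h5 : ∀ f₁ ∈ A₁.pi (fun _ => (univ : Finset B)),
      |∑ f₂ ∈ A₂.pi (fun _ => (univ : Finset B)), (T2 A₂ f₁ f₂ - T1 f₁ / Φ)| ≤
        (B.card : ℝ) ^ A₂.card * R := by
    intro f₁ hf₁
    refine (abs_sum_le_sum_abs _ _).trans ((sum_le_sum fun f₂ hf₂ => hmain f₁ hf₁ f₂ hf₂).trans
      (le_of_eq ?_))
    rw [sum_const, nsmul_eq_mul, hcard]
  refine (sum_le_sum h5).trans (le_of_eq ?_)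
  rw [sum_const, nsmul_eq_mul, hcard, pow_add]
  ring

end Pool.Agent.Helper19.MC
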